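import Pool.Agent.NDR.StmtsC

/-!
# Squad NDR (MP_b48657_ag), row CGE: the Newton polyhedron cut by the degree is the convex hull
-/

set_option autoImplicit false

namespace Pool.Agent.NDR.H66

open Finset Pool.Agent.NDR

/-- a sum over `M` with weights `c i` at the points `L e_i` -/
theorem sum_single {σ : Type} (M : Finset (σ →₀ ℕ)) (I : Finset σ) (L : ℕ)
    (h1 : ∀ i ∈ I, Finsupp.single i L ∈ M) (c : σ → ℝ) (g : (σ →₀ ℕ) → ℝ)
    [DecidableEq (σ →₀ ℕ)] :
    ∑ α ∈ M, (∑ i ∈ I, if α = Finsupp.single i L then c i else 0) * g α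
      = ∑ i ∈ I, c i * g (Finsupp.single i L) := by
  simp only [Finset.sum_mul]
  rw [Finset.sum_comm]
  refine Finset.sum_congr rfl fun i hi => ?_
  rw [Finset.sum_eq_single (Finsupp.single i L)]
  · rw [if_pos rfl]
  · intro α _ hα
    rw [if_neg hα, zero_mul]
  · intro h
    exact absurd (h1 i hi) h

/-- **CGE** -/
theorem cge : CgeStmt := by
  classical
  intro σ _ M I L q r h1 h2 h3 h4
  obtain ⟨l, hl0, hlq, hlr⟩ := h3
  set m : σ → ℝ := fun i => ∑ α ∈ M, l α * ((α i : ℕ) : ℝ) with hm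
  have hm0 : ∀ i, 0 ≤ m i := fun i =>
    Finset.sum_nonneg fun α _ => mul_nonneg (hl0 α) (Nat.cast_nonneg _)
  have hd0 : ∀ i ∈ I, 0 ≤ q i - m i := fun i hi => sub_nonneg.2 (hlq i hi)
  have hr0 : 0 ≤ r := by
    rw [← hlr]
    exact Finset.sum_nonneg fun α _ => hl0 α
  have hmL : ∑ i ∈ I, m i ≤ L * r := by
    calc ∑ i ∈ I, m i = ∑ α ∈ M, l α * ∑ i ∈ I, ((α i : ℕ) : ℝ) := by
          simp only [hm, Finset.mul_sum]
          rw [Finset.sum_comm]
      _ ≤ ∑ α ∈ M, l α * L := by
          refine Finset.sum_le_sum fun α hα => mul_le_mul_of_nonneg_left ?_ (hl0 α)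
          exact_mod_cast h2 α hα
      _ = L * r := by rw [← Finset.sum_mul, hlr, mul_comm]
  have hds : ∑ i ∈ I, (q i - m i) = ∑ i ∈ I, q i - ∑ i ∈ I, m i := Finset.sum_sub_distrib _ _
  rcases hmL.eq_or_lt with he | hlt
  · -- `d = 0`
    have hd : ∑ i ∈ I, (q i - m i) = 0 := by
      refine le_antisymm ?_ (Finset.sum_nonneg hd0)
      rw [hds, he]
      linarith
    have hd' := (Finset.sum_eq_zero_iff_of_nonneg hd0).1 hd
    refine ⟨l, hl0, fun i hi => ?_, hlr⟩
    have := hd' i hi
    simp only [hm] at this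
    linarith
  · have hS0 : 0 ≤ ∑ i ∈ I, m i := Finset.sum_nonneg fun i _ => hm0 i
    have hLr : 0 < (L : ℝ) * r := hS0.trans_lt hlt
    have hL : (0 : ℝ) < L := by
      rcases (Nat.cast_nonneg L : (0 : ℝ) ≤ L).eq_or_lt with h | h
      · rw [← h, zero_mul] at hLr
        exact absurd hLr (lt_irrefl _)
      · exact h
    set den := (L : ℝ) * r - ∑ i ∈ I, m i with hden
    have hden0 : 0 < den := sub_pos.2 hlt
    set t := (∑ i ∈ I, (q i - m i)) / den with ht
    have ht0 : 0 ≤ t := div_nonneg (Finset.sum_nonneg hd0) hden0.le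
    have ht1 : t ≤ 1 := by
      rw [ht, div_le_one hden0, hds, hden]
      linarith
    have htd : t * den = ∑ i ∈ I, (q i - m i) := div_mul_cancel₀ _ hden0.ne'
    set c : σ → ℝ := fun i => (t * m i + (q i - m i)) / L with hc
    have hc0 : ∀ i ∈ I, 0 ≤ c i := fun i hi =>
      div_nonneg (add_nonneg (mul_nonneg ht0 (hm0 i)) (hd0 i hi)) hL.le
    refine ⟨fun α => (1 - t) * l α + ∑ i ∈ I, if α = Finsupp.single i L then c i else 0,
      fun α => ?_, fun j hj => ?_, ?_⟩
    · refine add_nonneg (mul_nonneg (by linarith) (hl0 α)) (Finset.sum_nonneg fun i hi => ?_)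
      split_ifs
      · exact hc0 i hi
      · exact le_rfl
    · have e1 : ∑ α ∈ M, ((1 - t) * l α + ∑ i ∈ I, if α = Finsupp.single i L then c i else 0)
          * ((α j : ℕ) : ℝ)
          = (1 - t) * m j + ∑ i ∈ I, c i * (((Finsupp.single i L : σ →₀ ℕ) j : ℕ) : ℝ) := by
        rw [← sum_single M I L h1 c fun α => ((α j : ℕ) : ℝ)]
        simp only [hm, Finset.mul_sum]
        rw [← Finset.sum_add_distrib]
        refine Finset.sum_congr rfl fun α _ => ?_
        ring
      have e2 : ∑ i ∈ I, c i * (((Finsupp.single i L : σ →₀ ℕ) j : ℕ) : ℝ) = c j * L := by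
        rw [Finset.sum_eq_single j]
        · rw [Finsupp.single_eq_same]
        · intro i _ hij
          rw [Finsupp.single_apply, if_neg hij, Nat.cast_zero, mul_zero]
        · intro h
          exact absurd hj h
      have e3 : c j * L = t * m j + (q j - m j) := div_mul_cancel₀ _ hL.ne'
      rw [e1, e2, e3]
      ring
    · have e1 : ∑ α ∈ M, ((1 - t) * l α + ∑ i ∈ I, if α = Finsupp.single i L then c i else 0)
          = (1 - t) * r + ∑ i ∈ I, c i := by
        have e4 := sum_single M I L h1 c fun _ => 1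
        simp only [mul_one] at e4
        rw [Finset.sum_add_distrib, e4, ← Finset.mul_sum, hlr]
      have e2 : ∑ i ∈ I, c i = (t * ∑ i ∈ I, m i + ∑ i ∈ I, (q i - m i)) / L := by
        rw [Finset.mul_sum, ← Finset.sum_add_distrib, Finset.sum_div]
      rw [e1, e2, ← htd, hden]
      field_simp
      ring

end Pool.Agent.NDR.H66
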