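import Pool.Agent.NDR.StmtsG

/-!
# Squad NDR (MP_b48657_ag), row GLF: the output of block G

The statement over an arbitrary field of characteristic zero follows from the one over its algebraic
closure `K'`: apply a `K`-linear map `K' → K` with `1 ↦ 1` to the coefficients.
-/

set_option autoImplicit false

namespace Pool.Agent.NDR.H66G

open Finset Pool.Agent.NDR

section field

variable {ι K : Type} [Field K]

theorem coeff_tht (v : ι) (h : Lr K ι) (m : ι → ℤ) :
    (tht v h).coeff m = ((m v : ℤ) : K) * h.coeff m := by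
  classical
  change (h.coeff.sum fun m c => Finsupp.single m (((m v : ℤ) : K) * c)) m = _
  rw [Finsupp.sum, Finset.sum_apply', Finset.sum_eq_single m]
  · rw [Finsupp.single_eq_same]
  · intro a _ ha
    rw [Finsupp.single_apply, if_neg ha]
  · intro hm
    rw [Finsupp.notMem_support_iff.1 hm, mul_zero, Finsupp.single_zero]
    rfl

theorem tht_sum (v : ι) (f : (ι → ℤ) →₀ K) :
    tht v (AddMonoidAlgebra.ofCoeff f)
      = f.sum fun a c => AddMonoidAlgebra.single a (((a v : ℤ) : K) * c) := by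
  change AddMonoidAlgebra.ofCoeff (f.sum fun m c => Finsupp.single m (((m v : ℤ) : K) * c)) = _
  rw [AddMonoidAlgebra.ofCoeff_finsuppSum]
  rfl

theorem ofCoeff_sum (h : (ι → ℤ) →₀ K) :
    (AddMonoidAlgebra.ofCoeff h : Lr K ι) = h.sum fun a c => AddMonoidAlgebra.single a c := by
  conv_lhs => rw [← Finsupp.sum_single h]
  rw [AddMonoidAlgebra.ofCoeff_finsuppSum]
  rfl

theorem thm_eq (f : (ι → ℤ) →₀ K) (k : ι) (h : (ι → ℤ) →₀ K) :
    thm f k h = (tht k (AddMonoidAlgebra.ofCoeff f) * AddMonoidAlgebra.ofCoeff h : Lr K ι).coeff := by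
  rw [tht_sum, ofCoeff_sum h, Finsupp.sum_mul, AddMonoidAlgebra.coeff_finsuppSum]
  unfold thm
  refine Finsupp.sum_congr fun a _ => ?_
  rw [Finsupp.mul_sum, AddMonoidAlgebra.coeff_finsuppSum]
  refine Finsupp.sum_congr fun m _ => ?_
  rw [AddMonoidAlgebra.single_mul_single, AddMonoidAlgebra.coeff_single, add_comm]

theorem mem_cut (Q : Set (ι → ℤ)) [DecidablePred fun m => m ∈ Q] (h : Lr K ι) (m : ι → ℤ) :
    (cut Q h).coeff m = if m ∈ Q then h.coeff m else 0 := by
  by_cases hm : m ∈ Q
  · rw [if_pos hm]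
    exact @Finsupp.filter_apply_pos _ _ _ (fun m => m ∈ Q) (fun _ => Classical.propDecidable _)
      h.coeff m hm
  · rw [if_neg hm]
    exact @Finsupp.filter_apply_neg _ _ _ (fun m => m ∈ Q) (fun _ => Classical.propDecidable _)
      h.coeff m hm

end field

/-- coefficientwise application of a `K`-linear map -/
theorem lin_mul {ι K K' : Type} [Field K] [Field K'] [Algebra K K'] (ρ : K' →ₗ[K] K)
    (a : Lr K ι) (h : Lr K' ι) :
    AddMonoidAlgebra.map ρ.toAddMonoidHom
      (AddMonoidAlgebra.mapRingHom (ι → ℤ) (algebraMap K K') a * h)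
      = a * AddMonoidAlgebra.map ρ.toAddMonoidHom h := by
  induction a using AddMonoidAlgebra.induction_linear with
  | zero => rw [map_zero, zero_mul, zero_mul, AddMonoidAlgebra.map_zero]
  | add x y hx hy => rw [map_add, add_mul, add_mul, AddMonoidAlgebra.map_add, hx, hy]
  | single b c =>
    apply AddMonoidAlgebra.ext
    ext m
    rw [AddMonoidAlgebra.mapRingHom_single, AddMonoidAlgebra.coeff_map, Finsupp.mapRange_apply,
      AddMonoidAlgebra.coeff_single_mul_apply, AddMonoidAlgebra.coeff_single_mul_apply,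
      AddMonoidAlgebra.coeff_map, Finsupp.mapRange_apply]
    change ρ (algebraMap K K' c * h.coeff (-b + m)) = c * ρ (h.coeff (-b + m))
    rw [← Algebra.smul_def, map_smul, smul_eq_mul]

/-- **GLF** -/
theorem glf (h1 : GlaStmt) (h2 : FcfStmt) : GlfStmt := by
  classical
  intro ι _ K _ _ I f κ N p hN hκ hA hNd x hx hsum
  have : CharZero (AlgebraicClosure K) :=
    charZero_of_injective_algebraMap (algebraMap K (AlgebraicClosure K)).injective
  set φ := algebraMap K (AlgebraicClosure K) with hφ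
  have φi : Function.Injective φ := φ.injective
  set Φ : Lr K ι →+* Lr (AlgebraicClosure K) ι := AddMonoidAlgebra.mapRingHom (ι → ℤ) φ with hΦ
  have Φc : ∀ h m, (Φ h).coeff m = φ (h.coeff m) := fun h m =>
    AddMonoidAlgebra.coeff_mapRingHom φ h m
  have Φt : ∀ v h, tht v (Φ h) = Φ (tht v h) := by
    intro v h
    apply AddMonoidAlgebra.ext
    ext m
    rw [coeff_tht, Φc, Φc, coeff_tht, map_mul, map_intCast]
  obtain ⟨ρ, hρ⟩ : ∃ ρ : AlgebraicClosure K →ₗ[K] K, ρ 1 = 1 := by
    obtain ⟨ρ, hρ⟩ := LinearMap.exists_leftInverse_of_injective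
      (Algebra.linearMap K (AlgebraicClosure K)) (LinearMap.ker_eq_bot.2 φi)
    refine ⟨ρ, ?_⟩
    have := LinearMap.congr_fun hρ 1
    simpa using this
  set P : Lr (AlgebraicClosure K) ι → Lr K ι := AddMonoidAlgebra.map ρ.toAddMonoidHom with hP
  have Pc : ∀ h m, (P h).coeff m = ρ (h.coeff m) := fun h m => rfl
  have Pmul : ∀ a h, P (Φ a * h) = a * P h := fun a h => lin_mul ρ a h
  have P1 : P 1 = 1 := by
    have h3 : (1 : Lr (AlgebraicClosure K) ι) = AddMonoidAlgebra.single 0 1 := rfl
    have h4 : (1 : Lr K ι) = AddMonoidAlgebra.single 0 1 := rfl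
    rw [h3, h4]
    have h5 := AddMonoidAlgebra.map_single ρ.toAddMonoidHom (1 : AlgebraicClosure K) (0 : ι → ℤ)
    rw [hP, h5]
    change AddMonoidAlgebra.single 0 (ρ 1) = _
    rw [hρ]
  have PΦ : ∀ a, P (Φ a) = a := by
    intro a
    have := Pmul a 1
    rwa [mul_one, P1, mul_one] at this
  have Padd : ∀ a b, P (a + b) = P a + P b := fun a b => AddMonoidAlgebra.map_add _ a b
  have Psum : ∀ {J : Type} (s : Finset J) (g : J → Lr (AlgebraicClosure K) ι),
      P (∑ i ∈ s, g i) = ∑ i ∈ s, P (g i) := fun s g => AddMonoidAlgebra.map_sum _ s g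
  have Pneg : ∀ a, P (-a) = -P a := by
    intro a
    apply AddMonoidAlgebra.ext
    ext m
    change ρ (-(a.coeff m)) = -ρ (a.coeff m)
    rw [map_neg]
  -- the support of `f` does not change
  set F' : Lr (AlgebraicClosure K) ι := Φ (AddMonoidAlgebra.ofCoeff f) with hF'
  have hsupp : F'.coeff.support = f.support := by
    ext m
    rw [Finsupp.mem_support_iff, Finsupp.mem_support_iff, hF', Φc]
    change φ (f m) ≠ 0 ↔ f m ≠ 0
    rw [Ne, map_eq_zero_iff φ φi]
  have hpt : ∀ m : ι → ℤ, pt p m = shv (fun i => p i - 1) m := by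
    intro m
    funext i
    simp only [pt, shv]
    ring
  have hRG : ∀ m : ι → ℤ, m ∈ RG I ∅ F'.coeff.support (fun i => p i - 1) ↔
      InC I f.support (pt p m) := by
    intro m
    rw [hpt, ← hsupp]
    exact ⟨fun h => h.1, fun h => ⟨h, fun j hj => absurd hj (Finset.notMem_empty j)⟩⟩
  have hH : Hgt I F'.coeff.support κ N := ⟨hN, hκ, fun a ha => hA a (hsupp ▸ ha)⟩
  -- nondegeneracy
  have hU : ∀ F, IsF I F'.coeff.support F → F.Nonempty →
      Ung Finset.univ I F F' 0 fun _ => 0 := by
    intro F hF hFne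
    obtain ⟨u, hu0, huA, huF⟩ := h2 ι I F'.coeff.support F hF
    rw [hsupp] at huA huF
    obtain ⟨g, hg⟩ := hNd u hu0 huA (by
      obtain ⟨a, ha⟩ := hFne
      exact ⟨a, ((huF a).1 ha).1, ((huF a).1 ha).2⟩)
    have hcut : cut (ov I F) F' = Φ (AddMonoidAlgebra.ofCoeff (fac f u)) := by
      apply AddMonoidAlgebra.ext
      ext m
      rw [mem_cut, hF', Φc, Φc]
      change (if m ∈ ov I F then φ (f m) else 0) = φ (fac f u m)
      have e1 : fac f u m = if pr u m = 0 then f m else 0 := by
        unfold fac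
        rw [Finsupp.filter_apply]
      rw [e1]
      by_cases hm : f m = 0
      · simp [hm]
      · have hm' : m ∈ f.support := Finsupp.mem_support_iff.2 hm
        have e2 : m ∈ ov I F ↔ pr u m = 0 := by
          constructor
          · rintro ⟨a, ha, hma⟩
            have h3 := ((huF a).1 ha).2
            have h4 : pr u m = pr u a := by
              refine Finset.sum_congr rfl fun i _ => ?_
              by_cases hi : i ∈ I
              · rw [hma i hi]
              · rw [hu0 i hi, zero_mul, zero_mul]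
            rw [h4, h3]
          · intro h
            exact ⟨m, (huF m).2 ⟨hm', h⟩, fun _ _ => rfl⟩
        by_cases h3 : pr u m = 0
        · rw [if_pos (e2.2 h3), if_pos h3]
        · rw [if_neg (fun h => h3 (e2.1 h)), if_neg h3, map_zero]
    refine ⟨fun i => Φ (AddMonoidAlgebra.ofCoeff (g i)), fun _ => 0, ?_⟩
    rw [Finset.range_zero, Finset.sum_empty, add_zero, hcut]
    have h3 : ∑ i, Φ (AddMonoidAlgebra.ofCoeff (g i)) * tht i (Φ (AddMonoidAlgebra.ofCoeff (fac f u)))
        = Φ (∑ i, tht i (AddMonoidAlgebra.ofCoeff (fac f u)) * AddMonoidAlgebra.ofCoeff (g i)) := by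
      rw [map_sum]
      refine Finset.sum_congr rfl fun i _ => ?_
      rw [map_mul, Φt, mul_comm]
    rw [h3]
    have h4 : ∑ i, tht i (AddMonoidAlgebra.ofCoeff (fac f u)) * AddMonoidAlgebra.ofCoeff (g i)
        = (1 : Lr K ι) := by
      apply AddMonoidAlgebra.ext
      rw [AddMonoidAlgebra.coeff_sum]
      simp only [← thm_eq]
      exact hg
    rw [h4, map_one]
  -- the elements `x k`
  have hx' : ∀ k ∈ I, Φ (AddMonoidAlgebra.ofCoeff (x k)) ∈
      MS (AlgebraicClosure K) (RG I ∅ F'.coeff.support fun i => p i - 1) := by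
    intro k hk m hm
    rw [hRG]
    refine hx k hk m (Finsupp.mem_support_iff.2 fun h => hm ?_)
    rw [Φc]
    change φ (x k m) = 0
    rw [h, map_zero]
  have hsum' : ∑ k ∈ I, tht k F' * Φ (AddMonoidAlgebra.ofCoeff (x k)) = 0 := by
    have h3 : ∑ k ∈ I, tht k F' * Φ (AddMonoidAlgebra.ofCoeff (x k))
        = Φ (∑ k ∈ I, tht k (AddMonoidAlgebra.ofCoeff f) * AddMonoidAlgebra.ofCoeff (x k)) := by
      rw [map_sum]
      refine Finset.sum_congr rfl fun k _ => ?_
      rw [map_mul, hF', Φt]
    rw [h3]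
    have h4 : ∑ k ∈ I, tht k (AddMonoidAlgebra.ofCoeff f) * AddMonoidAlgebra.ofCoeff (x k)
        = (0 : Lr K ι) := by
      apply AddMonoidAlgebra.ext
      rw [AddMonoidAlgebra.coeff_sum]
      simp only [← thm_eq]
      exact hsum
    rw [h4, map_zero]
  obtain ⟨y, C, hC, u, z, hy1, hy2, hz, hu1, hu2, hxk⟩ := h1 ι (AlgebraicClosure K) I F' κ N
    (fun i => p i - 1) hH hU (fun k => Φ (AddMonoidAlgebra.ofCoeff (x k))) hx' hsum'
  have hReg : ∀ h : Lr (AlgebraicClosure K) ι,
      h ∈ MS (AlgebraicClosure K) (RG I ∅ F'.coeff.support fun i => p i - 1) →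
      Reg I f.support p (P h).coeff := by
    intro h hh m hm
    rw [← hRG]
    refine hh m fun h0 => Finsupp.mem_support_iff.1 hm ?_
    rw [Pc, h0, map_zero]
  refine ⟨fun k l => (P (y k l)).coeff, C, hC, u, fun c => (P (z c)).coeff, ?_, ?_, ?_, hu1, ?_, ?_⟩
  · intro k l
    change (P (y k l)).coeff = -(P (y l k)).coeff
    rw [hy1 k l, Pneg]
    rfl
  · exact fun k l => hReg _ (hy2 k l)
  · exact fun c => hReg _ (hz c)
  · intro c a ha
    exact hu2 c a (hsupp ▸ ha)
  · intro k hk
    have h3 := congrArg P (hxk k hk)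
    rw [PΦ, Padd, Psum, Psum] at h3
    have h4 : ∀ l, P (tht l F' * y k l) = tht l (AddMonoidAlgebra.ofCoeff f) * P (y k l) := by
      intro l
      rw [hF', Φt, Pmul]
    have h5 : ∀ c, P (cst ι ((u c k : ℚ) : AlgebraicClosure K) * z c)
        = cst ι ((u c k : ℚ) : K) * P (z c) := by
      intro c
      have h6 : cst ι ((u c k : ℚ) : AlgebraicClosure K) = Φ (cst ι ((u c k : ℚ) : K)) := by
        unfold cst
        rw [hΦ, AddMonoidAlgebra.mapRingHom_single, map_ratCast]
      rw [h6, Pmul]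
    simp only [h4, h5] at h3
    have h7 := congrArg AddMonoidAlgebra.coeff h3
    rw [AddMonoidAlgebra.coeff_add, AddMonoidAlgebra.coeff_sum, AddMonoidAlgebra.coeff_sum] at h7
    have h8 : (AddMonoidAlgebra.ofCoeff (x k) : Lr K ι).coeff = x k := rfl
    rw [h8] at h7
    rw [h7]
    congr 1
    · refine Finset.sum_congr rfl fun l _ => ?_
      rw [thm_eq]
    · refine Finset.sum_congr rfl fun c _ => ?_
      ext m
      unfold cst
      rw [AddMonoidAlgebra.coeff_single_mul_apply, neg_zero, zero_add, Finsupp.smul_apply,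
        smul_eq_mul]

end Pool.Agent.NDR.H66G
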